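import Pool.Agent.H22.Egb3

set_option autoImplicit false

namespace Pool.Agent.Results.MP_72f11f_al.NoFiniteEGB

open Pool.Agent.H22.Egb MvPolynomial

theorem result :
    ∃ f : MvPolynomial (Fin 2) ℂ, f = X 0 ^ 2 * X 1 ∧ FinGenSym (RingHom.ker (phi f)) ∧
      ∃ m : MonomialOrder.{0, 0} Y, Respects m ∧
        ¬ ∃ G : Set R, G.Finite ∧ IsEGB m (RingHom.ker (phi f)) G :=
  ⟨_, rfl, finGen, ord, respects, fun ⟨G, h1, h2⟩ => no_egb G h1 h2⟩

end Pool.Agent.Results.MP_72f11f_al.NoFiniteEGB
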